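import Pool.Agent.N328.LF.Defs

/-!
Project LF (helper328), LF/SMALL (helper849): small sets of vertices of a random lift of a cubic graph.
-/

set_option autoImplicit false
set_option linter.unusedSectionVars false

namespace Pool.Agent.N849.LF
open Finset Pool.Agent.H160R2.HF Pool.Agent.N328.LF

section count

variable {V E : Type} [Fintype V] [Fintype E] [DecidableEq V] [DecidableEq E]

/-- the tails of the copies of `e` in `X` -/
def As (B : OrGraph V E) {N : ℕ} (X : Finset (V × Fin N)) (e : E) : Finset (Fin N) :=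
  univ.filter (fun i => (B.t e, i) ∈ X)

/-- the possible heads of the copies of `e` in `X` -/
def Bs (B : OrGraph V E) {N : ℕ} (X : Finset (V × Fin N)) (e : E) : Finset (Fin N) :=
  univ.filter (fun i => (B.h e, i) ∈ X)

/-- the number of the copies of `e` inside `X` -/
def insE (B : OrGraph V E) {N : ℕ} (X : Finset (V × Fin N)) (p : E → Equiv.Perm (Fin N)) (e : E) :
    ℕ := ((As B X e).filter (fun i => p e i ∈ Bs B X e)).card

/-- the number of the edges inside `X` -/
def ins (B : OrGraph V E) {N : ℕ} (X : Finset (V × Fin N)) (p : E → Equiv.Perm (Fin N)) : ℕ :=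
  ∑ e, insE B X p e

theorem sum_x {N : ℕ} (X : Finset (V × Fin N)) :
    ∑ v : V, (univ.filter (fun i : Fin N => (v, i) ∈ X)).card = X.card := by
  have h1 : X.card = ∑ q : V × Fin N, if q ∈ X then 1 else 0 := by
    rw [Finset.sum_ite_mem]
    simp
  rw [h1, Fintype.sum_prod_type]
  exact Finset.sum_congr rfl fun v _ => by rw [Finset.card_filter]

theorem sum_deg (B : OrGraph V E) (hc : B.Cubic) {N : ℕ} (X : Finset (V × Fin N)) :
    ∑ e, (As B X e).card + ∑ e, (Bs B X e).card = 3 * X.card := by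
  have key : ∀ g : E → V, ∑ e, (univ.filter (fun i : Fin N => (g e, i) ∈ X)).card =
      ∑ v : V, (univ.filter (fun e => g e = v)).card *
        (univ.filter (fun i : Fin N => (v, i) ∈ X)).card := by
    intro g
    rw [← Finset.sum_fiberwise univ g]
    refine Finset.sum_congr rfl fun v _ => ?_
    rw [← smul_eq_mul, ← Finset.sum_const]
    refine Finset.sum_congr rfl fun e he => ?_
    rw [(Finset.mem_filter.1 he).2]
  have h1 := key B.t
  have h2 := key B.h
  unfold As Bs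
  rw [h1, h2, ← Finset.sum_add_distrib, ← sum_x X, Finset.mul_sum]
  refine Finset.sum_congr rfl fun v _ => ?_
  rw [← Nat.add_mul]
  have h3 := hc v
  unfold OrGraph.deg at h3
  rw [h3]

theorem sum_As (B : OrGraph V E) (hc : B.Cubic) {N : ℕ} (X : Finset (V × Fin N)) :
    ∑ e, (As B X e).card ≤ 3 * X.card := by
  have := sum_deg B hc X
  omega

/-- handshake -/
theorem hand (B : OrGraph V E) (hc : B.Cubic) {N : ℕ} (X : Finset (V × Fin N))
    (p : E → Equiv.Perm (Fin N)) : ((lift B p).cut X).card + 2 * ins B X p = 3 * X.card := by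
  rw [← sum_deg B hc X]
  have hcut : ((lift B p).cut X).card =
      ∑ e, (univ.filter (fun i => ¬ ((B.t e, i) ∈ X ↔ (B.h e, p e i) ∈ X))).card := by
    unfold OrGraph.cut lift
    rw [Finset.card_filter, Fintype.sum_prod_type]
    exact Finset.sum_congr rfl fun e _ => by rw [Finset.card_filter]
  rw [hcut]
  unfold ins
  rw [Finset.mul_sum, ← Finset.sum_add_distrib, ← Finset.sum_add_distrib]
  refine Finset.sum_congr rfl fun e _ => ?_
  have hB : (Bs B X e).card = (univ.filter (fun i => (B.h e, p e i) ∈ X)).card := by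
    unfold Bs
    rw [← Finset.card_map (p e).toEmbedding (s := univ.filter (fun i => (B.h e, p e i) ∈ X))]
    congr 1
    ext i
    simp only [Finset.mem_filter, Finset.mem_univ, true_and, Finset.mem_map_equiv]
    rw [Equiv.apply_symm_apply]
  have hI : insE B X p e = (univ.filter (fun i => (B.t e, i) ∈ X ∧ (B.h e, p e i) ∈ X)).card := by
    unfold insE As Bs
    rw [Finset.filter_filter]
    congr 1
    ext i
    simp only [Finset.mem_filter, Finset.mem_univ, true_and]
  rw [hB, hI]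
  unfold As
  simp only [Finset.card_filter]
  rw [Finset.mul_sum, ← Finset.sum_add_distrib, ← Finset.sum_add_distrib]
  refine Finset.sum_congr rfl fun i _ => ?_
  by_cases h1 : (B.t e, i) ∈ X <;> by_cases h2 : (B.h e, p e i) ∈ X <;> simp [h1, h2]

omit [Fintype V] [DecidableEq E] in
theorem Bs_le (B : OrGraph V E) {N : ℕ} (X : Finset (V × Fin N)) (e : E) :
    (Bs B X e).card ≤ X.card := by
  refine Finset.card_le_card_of_injOn (fun i => (B.h e, i)) ?_ ?_
  · intro i hi
    exact (Finset.mem_filter.1 hi).2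
  · intro i _ j _ h
    exact (Prod.mk.inj h).2

theorem exists_r (f : E → ℕ) : ∀ s : ℕ, s ≤ ∑ e, f e → ∃ r : E → ℕ, (∀ e, r e ≤ f e) ∧
    ∑ e, r e = s
  | 0, _ => ⟨fun _ => 0, fun _ => Nat.zero_le _, by simp⟩
  | s + 1, h => by
      obtain ⟨r, h1, h2⟩ := exists_r f s (by omega)
      obtain ⟨e, -, he⟩ := Finset.exists_lt_of_sum_lt (s := univ) (f := r) (g := f) (by omega)
      refine ⟨Function.update r e (r e + 1), fun e' => ?_, ?_⟩
      · by_cases h3 : e' = e
        · subst h3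
          rw [Function.update_self]
          omega
        · rw [Function.update_of_ne h3]
          exact h1 e'
      · rw [Finset.sum_update_of_mem (Finset.mem_univ e)]
        rw [← Finset.add_sum_erase univ r (Finset.mem_univ e)] at h2
        rw [Finset.sdiff_singleton_eq_erase]
        omega

/-- one set of vertices -/
theorem claim
    (hu1 : ∀ (N : ℕ) (A B : Finset (Fin N)) (r : ℕ),
      (univ.filter (fun σ : Equiv.Perm (Fin N) => r ≤ (A.filter (fun i => σ i ∈ B)).card)).card *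
        N ^ r ≤ A.card.choose r * B.card ^ r * N.factorial)
    (B : OrGraph V E) (hc : B.Cubic) {N : ℕ} (X : Finset (V × Fin N)) (j : ℕ) :
    (univ.filter (fun p : E → Equiv.Perm (Fin N) => X.card + j ≤ ins B X p)).card *
      N ^ (X.card + j) ≤ 64 ^ X.card * X.card ^ (X.card + j) * N.factorial ^ Fintype.card E := by
  classical
  set k := X.card with hk
  set R : Finset (E → ℕ) := (Fintype.piFinset (fun e => range ((As B X e).card + 1))).filter
    (fun r => ∑ e, r e = k + j) with hR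
  set Z : (E → ℕ) → Finset (E → Equiv.Perm (Fin N)) := fun r => Fintype.piFinset
    (fun e => univ.filter (fun σ : Equiv.Perm (Fin N) =>
      r e ≤ ((As B X e).filter (fun i => σ i ∈ Bs B X e)).card)) with hZ
  have hsub : univ.filter (fun p : E → Equiv.Perm (Fin N) => k + j ≤ ins B X p) ⊆ R.biUnion Z := by
    intro p hp
    have h1 := (Finset.mem_filter.1 hp).2
    obtain ⟨r, h2, h3⟩ := exists_r (insE B X p) (k + j) h1
    rw [Finset.mem_biUnion]
    refine ⟨r, ?_, ?_⟩
    · rw [hR, Finset.mem_filter, Fintype.mem_piFinset]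
      refine ⟨fun e => ?_, h3⟩
      rw [Finset.mem_range]
      have h4 : insE B X p e ≤ (As B X e).card := Finset.card_le_card (Finset.filter_subset _ _)
      have := h2 e
      omega
    · rw [hZ]
      simp only
      rw [Fintype.mem_piFinset]
      intro e
      rw [Finset.mem_filter]
      exact ⟨Finset.mem_univ _, h2 e⟩
  have hcard : (univ.filter (fun p : E → Equiv.Perm (Fin N) => k + j ≤ ins B X p)).card ≤
      ∑ r ∈ R, (Z r).card := (Finset.card_le_card hsub).trans Finset.card_biUnion_le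
  have h3k : 2 ^ (∑ e, (As B X e).card) ≤ 8 ^ k := by
    calc 2 ^ (∑ e, (As B X e).card) ≤ 2 ^ (3 * k) :=
          Nat.pow_le_pow_right (by norm_num) (sum_As B hc X)
      _ = 8 ^ k := by rw [pow_mul]; norm_num
  have hone : ∀ r ∈ R, (Z r).card * N ^ (k + j) ≤
      8 ^ k * k ^ (k + j) * N.factorial ^ Fintype.card E := by
    intro r hr
    have hsum : ∑ e, r e = k + j := (Finset.mem_filter.1 hr).2
    rw [hZ]
    simp only
    rw [Fintype.card_piFinset, ← hsum, ← Finset.prod_pow_eq_pow_sum, ← Finset.prod_mul_distrib]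
    calc ∏ e, ((univ.filter (fun σ : Equiv.Perm (Fin N) =>
          r e ≤ ((As B X e).filter (fun i => σ i ∈ Bs B X e)).card)).card * N ^ r e)
        ≤ ∏ e, (2 ^ (As B X e).card * k ^ r e * N.factorial) := by
          refine Finset.prod_le_prod' fun e _ => ?_
          refine (hu1 N (As B X e) (Bs B X e) (r e)).trans ?_
          refine Nat.mul_le_mul_right _ ?_
          exact Nat.mul_le_mul (Nat.choose_le_two_pow _ _) (Nat.pow_le_pow_left (Bs_le B X e) _)
      _ = 2 ^ (∑ e, (As B X e).card) * k ^ (∑ e, r e) * N.factorial ^ Fintype.card E := by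
          rw [Finset.prod_mul_distrib, Finset.prod_mul_distrib, Finset.prod_pow_eq_pow_sum,
            Finset.prod_pow_eq_pow_sum, Finset.prod_const, Finset.card_univ]
      _ ≤ 8 ^ k * k ^ (∑ e, r e) * N.factorial ^ Fintype.card E := by
          exact Nat.mul_le_mul_right _ (Nat.mul_le_mul_right _ h3k)
  have hRc : R.card ≤ 8 ^ k := by
    calc R.card ≤ (Fintype.piFinset (fun e => range ((As B X e).card + 1))).card :=
          Finset.card_filter_le _ _
      _ = ∏ e, ((As B X e).card + 1) := by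
          rw [Fintype.card_piFinset]
          simp
      _ ≤ ∏ e, 2 ^ (As B X e).card :=
          Finset.prod_le_prod' fun e _ => Nat.succ_le_of_lt Nat.lt_two_pow_self
      _ = 2 ^ (∑ e, (As B X e).card) := by rw [Finset.prod_pow_eq_pow_sum]
      _ ≤ 8 ^ k := h3k
  calc (univ.filter (fun p : E → Equiv.Perm (Fin N) => k + j ≤ ins B X p)).card * N ^ (k + j)
      ≤ (∑ r ∈ R, (Z r).card) * N ^ (k + j) := Nat.mul_le_mul_right _ hcard
    _ = ∑ r ∈ R, (Z r).card * N ^ (k + j) := by rw [Finset.sum_mul]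
    _ ≤ ∑ r ∈ R, 8 ^ k * k ^ (k + j) * N.factorial ^ Fintype.card E := Finset.sum_le_sum hone
    _ = R.card * (8 ^ k * k ^ (k + j) * N.factorial ^ Fintype.card E) := by
        rw [Finset.sum_const, smul_eq_mul]
    _ ≤ 8 ^ k * (8 ^ k * k ^ (k + j) * N.factorial ^ Fintype.card E) :=
        Nat.mul_le_mul_right _ hRc
    _ = 64 ^ k * k ^ (k + j) * N.factorial ^ Fintype.card E := by
        have : (64 : ℕ) ^ k = 8 ^ k * 8 ^ k := by
          rw [← mul_pow]
          norm_num
        rw [this]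
        ring

open Classical in
/-- the lifts with a set of `k` vertices and at least `k + j` edges inside -/
noncomputable def Sbad (B : OrGraph V E) (N k j : ℕ) : Finset (E → Equiv.Perm (Fin N)) :=
  univ.filter (fun p => ∃ X : Finset (V × Fin N), X.card = k ∧ k + j ≤ ins B X p)

theorem fact (k : ℕ) : (k : ℝ) ^ k / k.factorial ≤ 3 ^ k := by
  have h1 := Real.pow_div_factorial_le_exp (k : ℝ) (Nat.cast_nonneg k) k
  refine h1.trans ?_
  have h2 : Real.exp (k : ℝ) = Real.exp 1 ^ k := by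
    rw [← Real.exp_nat_mul, mul_one]
  rw [h2]
  exact pow_le_pow_left₀ (Real.exp_pos 1).le Real.exp_one_lt_three.le k

theorem Sbad_card
    (hu1 : ∀ (N : ℕ) (A B : Finset (Fin N)) (r : ℕ),
      (univ.filter (fun σ : Equiv.Perm (Fin N) => r ≤ (A.filter (fun i => σ i ∈ B)).card)).card *
        N ^ r ≤ A.card.choose r * B.card ^ r * N.factorial)
    (B : OrGraph V E) (hc : B.Cubic) {N : ℕ} (hN : 1 ≤ N) (k j : ℕ) :
    ((Sbad B N k j).card : ℝ) ≤ (192 * ((Fintype.card V : ℝ) + 1)) ^ k * ((k : ℝ) / N) ^ j *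
      (N.factorial : ℝ) ^ Fintype.card E := by
  classical
  set n := Fintype.card V with hn
  have hN0 : (0 : ℝ) < N := by exact_mod_cast hN
  have h1 : (Sbad B N k j).card ≤ ∑ X ∈ powersetCard k (univ : Finset (V × Fin N)),
      (univ.filter (fun p : E → Equiv.Perm (Fin N) => X.card + j ≤ ins B X p)).card := by
    refine le_trans (Finset.card_le_card ?_) Finset.card_biUnion_le
    intro p hp
    obtain ⟨X, h2, h3⟩ := (Finset.mem_filter.1 hp).2
    rw [Finset.mem_biUnion]
    refine ⟨X, ?_, ?_⟩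
    · rw [Finset.mem_powersetCard]
      exact ⟨Finset.subset_univ _, h2⟩
    · rw [Finset.mem_filter, h2]
      exact ⟨Finset.mem_univ _, h3⟩
  have h2 : (Sbad B N k j).card * N ^ (k + j) ≤
      (n * N).choose k * (64 ^ k * k ^ (k + j) * N.factorial ^ Fintype.card E) := by
    calc (Sbad B N k j).card * N ^ (k + j)
        ≤ (∑ X ∈ powersetCard k (univ : Finset (V × Fin N)),
          (univ.filter (fun p : E → Equiv.Perm (Fin N) => X.card + j ≤ ins B X p)).card) *
            N ^ (k + j) := Nat.mul_le_mul_right _ h1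
      _ = ∑ X ∈ powersetCard k (univ : Finset (V × Fin N)),
          (univ.filter (fun p : E → Equiv.Perm (Fin N) => X.card + j ≤ ins B X p)).card *
            N ^ (k + j) := by rw [Finset.sum_mul]
      _ ≤ ∑ X ∈ powersetCard k (univ : Finset (V × Fin N)),
          64 ^ k * k ^ (k + j) * N.factorial ^ Fintype.card E := by
          refine Finset.sum_le_sum fun X hX => ?_
          have h3 := (Finset.mem_powersetCard.1 hX).2
          have h4 := claim hu1 B hc X j
          rw [h3] at h4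
          rw [h3]
          exact h4
      _ = _ := by
          rw [Finset.sum_const, Finset.card_powersetCard, smul_eq_mul, Finset.card_univ,
            Fintype.card_prod, Fintype.card_fin]
  have h3 : (((n * N).choose k : ℕ) : ℝ) ≤ ((n * N : ℕ) : ℝ) ^ k / k.factorial :=
    Nat.choose_le_pow_div k (n * N)
  have h4 : ((Sbad B N k j).card : ℝ) * (N : ℝ) ^ (k + j) ≤
      ((n * N : ℕ) : ℝ) ^ k / k.factorial *
        (64 ^ k * (k : ℝ) ^ (k + j) * (N.factorial : ℝ) ^ Fintype.card E) := by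
    have h5 : ((Sbad B N k j).card : ℝ) * (N : ℝ) ^ (k + j) ≤ (((n * N).choose k : ℕ) : ℝ) *
        (64 ^ k * (k : ℝ) ^ (k + j) * (N.factorial : ℝ) ^ Fintype.card E) := by exact_mod_cast h2
    refine h5.trans ?_
    exact mul_le_mul_of_nonneg_right h3 (by positivity)
  have h5 : ((n * N : ℕ) : ℝ) ^ k / k.factorial *
        (64 ^ k * (k : ℝ) ^ (k + j) * (N.factorial : ℝ) ^ Fintype.card E) =
      ((k : ℝ) ^ k / k.factorial) * (((n : ℝ) * N) ^ k * 64 ^ k * (k : ℝ) ^ j *
        (N.factorial : ℝ) ^ Fintype.card E) := by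
    push_cast
    rw [pow_add]
    ring
  have h6 : ((k : ℝ) ^ k / k.factorial) * (((n : ℝ) * N) ^ k * 64 ^ k * (k : ℝ) ^ j *
        (N.factorial : ℝ) ^ Fintype.card E) ≤
      3 ^ k * (((n : ℝ) * N) ^ k * 64 ^ k * (k : ℝ) ^ j *
        (N.factorial : ℝ) ^ Fintype.card E) :=
    mul_le_mul_of_nonneg_right (fact k) (by positivity)
  have h7 : (3 : ℝ) ^ k * (((n : ℝ) * N) ^ k * 64 ^ k * (k : ℝ) ^ j *
        (N.factorial : ℝ) ^ Fintype.card E) =
      ((192 * (n : ℝ)) ^ k * ((k : ℝ) / N) ^ j * (N.factorial : ℝ) ^ Fintype.card E) *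
        (N : ℝ) ^ (k + j) := by
    have e1 : (192 : ℝ) ^ k = 3 ^ k * 64 ^ k := by
      rw [← mul_pow]
      norm_num
    rw [mul_pow, mul_pow, e1, div_pow, pow_add]
    field_simp
  have h8 : ((Sbad B N k j).card : ℝ) ≤
      (192 * (n : ℝ)) ^ k * ((k : ℝ) / N) ^ j * (N.factorial : ℝ) ^ Fintype.card E := by
    have h9 : (0 : ℝ) < (N : ℝ) ^ (k + j) := by positivity
    refine le_of_mul_le_mul_right ?_ h9
    rw [← h7]
    exact h4.trans (h5.le.trans h6)
  refine h8.trans ?_
  apply mul_le_mul_of_nonneg_right _ (by positivity)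
  apply mul_le_mul_of_nonneg_right _ (by positivity)
  apply pow_le_pow_left₀ (by positivity)
  linarith

/-- the terms of the second sum -/
theorem term {D A : ℝ} (hD : 1 ≤ D) (hA : A = 4 * D ^ 4) {N k : ℕ} (hN : 1 ≤ N)
    (hk : 1 ≤ k) (hkN : (k : ℝ) ≤ 1 / (4 * A) * N) :
    D ^ k * ((k : ℝ) / N) ^ ((k + 3) / 4) ≤ 4 * A / N * (((1 / 2 : ℝ) ^ (1 / 4 : ℝ)) ^ k) := by
  have hN0 : (0 : ℝ) < N := by exact_mod_cast hN
  have hA0 : 0 < A := by
    rw [hA]
    positivity
  obtain ⟨j, hj⟩ : ∃ j, j = (k + 3) / 4 := ⟨_, rfl⟩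
  rw [← hj]
  have hk4 : k ≤ 4 * j := by omega
  have hjk : j ≤ k := by omega
  have hj1 : 1 ≤ j := by omega
  have hk4R : (k : ℝ) ≤ 4 * j := by exact_mod_cast hk4
  have hjkR : (j : ℝ) ≤ k := by exact_mod_cast hjk
  have h1 : D ^ k ≤ (D ^ 4) ^ j := by
    rw [← pow_mul]
    exact pow_le_pow_right₀ hD hk4
  have h2 : ((k : ℝ) / N) ^ j ≤ (4 * j / N) ^ j := by
    apply pow_le_pow_left₀ (by positivity)
    exact div_le_div_of_nonneg_right hk4R hN0.le
  have h3 : D ^ k * ((k : ℝ) / N) ^ j ≤ (A * j / N) ^ j := by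
    calc D ^ k * ((k : ℝ) / N) ^ j ≤ (D ^ 4) ^ j * (4 * j / N) ^ j :=
          mul_le_mul h1 h2 (by positivity) (by positivity)
      _ = (A * j / N) ^ j := by
          rw [← mul_pow, hA]
          congr 1
          ring
  have h4 : A * j / N ≤ 1 / 4 := by
    rw [div_le_iff₀ hN0]
    have : A * (j : ℝ) ≤ A * (1 / (4 * A) * N) := mul_le_mul_of_nonneg_left (hjkR.trans hkN) hA0.le
    refine this.trans (le_of_eq ?_)
    field_simp
  obtain ⟨i, rfl⟩ : ∃ i, j = i + 1 := ⟨j - 1, by omega⟩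
  have h5 : (A * ((i + 1 : ℕ) : ℝ) / N) ^ (i + 1) ≤
      (1 / 4) ^ i * (A * ((i + 1 : ℕ) : ℝ) / N) := by
    rw [pow_succ]
    apply mul_le_mul_of_nonneg_right _ (by positivity)
    exact pow_le_pow_left₀ (by positivity) h4 i
  have h6 : ((i + 1 : ℕ) : ℝ) ≤ 2 ^ (i + 1) := by
    exact_mod_cast (Nat.lt_two_pow_self (n := i + 1)).le
  have h7 : (1 / 4 : ℝ) ^ i * (A * ((i + 1 : ℕ) : ℝ) / N) ≤
      (1 / 4 : ℝ) ^ i * (A * 2 ^ (i + 1) / N) := by
    apply mul_le_mul_of_nonneg_left _ (by positivity)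
    apply div_le_div_of_nonneg_right _ hN0.le
    exact mul_le_mul_of_nonneg_left h6 hA0.le
  have h8 : (1 / 4 : ℝ) ^ i * (A * 2 ^ (i + 1) / N) = 4 * A / N * (1 / 2) ^ (i + 1) := by
    have e1 : (1 / 4 : ℝ) ^ i = (1 / 2) ^ i * (1 / 2) ^ i := by
      rw [← mul_pow]
      norm_num
    have e2 : (1 / 2 : ℝ) ^ i * 2 ^ i = 1 := by
      rw [← mul_pow]
      norm_num
    rw [e1, pow_succ, pow_succ]
    calc (1 / 2 : ℝ) ^ i * (1 / 2) ^ i * (A * (2 ^ i * 2) / N)
        = ((1 / 2 : ℝ) ^ i * 2 ^ i) * ((1 / 2) ^ i * (A * 2 / N)) := by ring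
      _ = 4 * A / N * ((1 / 2) ^ i * (1 / 2)) := by
          rw [e2]
          ring
  have h9 : (1 / 2 : ℝ) ^ (i + 1) ≤ ((1 / 2 : ℝ) ^ (1 / 4 : ℝ)) ^ k := by
    rw [← Real.rpow_natCast, ← Real.rpow_natCast, ← Real.rpow_mul (by norm_num)]
    apply Real.rpow_le_rpow_of_exponent_ge (by norm_num) (by norm_num)
    linarith
  calc D ^ k * ((k : ℝ) / N) ^ (i + 1) ≤ 4 * A / N * (1 / 2) ^ (i + 1) :=
        h3.trans (h5.trans (h7.trans h8.le))
    _ ≤ 4 * A / N * (((1 / 2 : ℝ) ^ (1 / 4 : ℝ)) ^ k) :=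
        mul_le_mul_of_nonneg_left h9 (by positivity)

end count

/-- LF/SMALL: small sets of vertices of a random lift. -/
theorem small
    (hu1 : ∀ (N : ℕ) (A B : Finset (Fin N)) (r : ℕ),
      (univ.filter (fun σ : Equiv.Perm (Fin N) => r ≤ (A.filter (fun i => σ i ∈ B)).card)).card *
        N ^ r ≤ A.card.choose r * B.card ^ r * N.factorial)
    (V E : Type) [Fintype V] [Fintype E] [DecidableEq V] [DecidableEq E]
    (B : OrGraph V E) (hc : B.Cubic) (k₀ : ℕ) :
    ∃ c C : ℝ, 0 < c ∧ ∀ N : ℕ, 1 ≤ N →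
      (({p : E → Equiv.Perm (Fin N) | ∃ X : Finset (V × Fin N), X.Nonempty ∧
        ((X.card ≤ k₀ ∧ ((lift B p).cut X).card + 2 ≤ X.card) ∨
          ((X.card : ℝ) ≤ c * N ∧ 2 * ((lift B p).cut X).card < X.card))}.ncard : ℕ) : ℝ) ≤
        C / N * ((N.factorial : ℝ) ^ Fintype.card E) := by
  classical
  set D : ℝ := 192 * ((Fintype.card V : ℝ) + 1) with hD
  have hD1 : 1 ≤ D := by
    have : (0 : ℝ) ≤ Fintype.card V := Nat.cast_nonneg _
    linarith
  set A : ℝ := 4 * D ^ 4 with hA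
  have hA0 : 0 < A := by positivity
  set ρ : ℝ := (1 / 2 : ℝ) ^ (1 / 4 : ℝ) with hρ
  have hρ0 : 0 ≤ ρ := by positivity
  have hρ1 : ρ < 1 := Real.rpow_lt_one (by norm_num) (by norm_num) (by norm_num)
  refine ⟨1 / (4 * A), ∑ k ∈ Icc 1 k₀, D ^ k * k + 4 * A * (1 - ρ)⁻¹, by positivity,
    fun N hN => ?_⟩
  have hN0 : (0 : ℝ) < N := by exact_mod_cast hN
  set K : ℕ := ⌊1 / (4 * A) * N⌋₊ with hK
  set F : ℝ := (N.factorial : ℝ) ^ Fintype.card E with hF
  have hF0 : 0 ≤ F := by positivity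
  -- the cover
  have hsub : {p : E → Equiv.Perm (Fin N) | ∃ X : Finset (V × Fin N), X.Nonempty ∧
        ((X.card ≤ k₀ ∧ ((lift B p).cut X).card + 2 ≤ X.card) ∨
          ((X.card : ℝ) ≤ 1 / (4 * A) * N ∧ 2 * ((lift B p).cut X).card < X.card))} ⊆
      ↑((Icc 1 k₀).biUnion (fun k => Sbad B N k 1) ∪
        (Icc 1 K).biUnion (fun k => Sbad B N k ((k + 3) / 4))) := by
    rintro p ⟨X, hX, h⟩
    have h0 := hand B hc X p
    have h1 : 1 ≤ X.card := Finset.card_pos.2 hX
    rw [Finset.mem_coe, Finset.mem_union]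
    rcases h with ⟨h2, h3⟩ | ⟨h2, h3⟩
    · left
      rw [Finset.mem_biUnion]
      refine ⟨X.card, Finset.mem_Icc.2 ⟨h1, h2⟩, ?_⟩
      unfold Sbad
      rw [Finset.mem_filter]
      exact ⟨Finset.mem_univ _, X, rfl, by omega⟩
    · right
      rw [Finset.mem_biUnion]
      refine ⟨X.card, Finset.mem_Icc.2 ⟨h1, Nat.le_floor h2⟩, ?_⟩
      unfold Sbad
      rw [Finset.mem_filter]
      exact ⟨Finset.mem_univ _, X, rfl, by omega⟩
  have hcard := Set.ncard_le_ncard hsub (Finset.finite_toSet _)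
  rw [Set.ncard_coe_finset] at hcard
  have hcard2 : ((Icc 1 k₀).biUnion (fun k => Sbad B N k 1) ∪
        (Icc 1 K).biUnion (fun k => Sbad B N k ((k + 3) / 4))).card ≤
      ∑ k ∈ Icc 1 k₀, (Sbad B N k 1).card + ∑ k ∈ Icc 1 K, (Sbad B N k ((k + 3) / 4)).card :=
    (Finset.card_union_le _ _).trans (Nat.add_le_add Finset.card_biUnion_le Finset.card_biUnion_le)
  have h1 : (({p : E → Equiv.Perm (Fin N) | ∃ X : Finset (V × Fin N), X.Nonempty ∧
        ((X.card ≤ k₀ ∧ ((lift B p).cut X).card + 2 ≤ X.card) ∨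
          ((X.card : ℝ) ≤ 1 / (4 * A) * N ∧ 2 * ((lift B p).cut X).card < X.card))}.ncard : ℕ) : ℝ) ≤
      ∑ k ∈ Icc 1 k₀, ((Sbad B N k 1).card : ℝ) +
        ∑ k ∈ Icc 1 K, ((Sbad B N k ((k + 3) / 4)).card : ℝ) := by
    exact_mod_cast hcard.trans hcard2
  refine h1.trans ?_
  have h2 : ∑ k ∈ Icc 1 k₀, ((Sbad B N k 1).card : ℝ) ≤
      (∑ k ∈ Icc 1 k₀, D ^ k * k) / N * F := by
    rw [Finset.sum_div, Finset.sum_mul]
    refine Finset.sum_le_sum fun k _ => ?_
    refine (Sbad_card hu1 B hc hN k 1).trans (le_of_eq ?_)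
    rw [pow_one, mul_div_assoc]
  have h3 : ∑ k ∈ Icc 1 K, ((Sbad B N k ((k + 3) / 4)).card : ℝ) ≤
      (4 * A * (1 - ρ)⁻¹) / N * F := by
    have h4 : ∑ k ∈ Icc 1 K, ((Sbad B N k ((k + 3) / 4)).card : ℝ) ≤
        ∑ k ∈ Icc 1 K, 4 * A / N * F * ρ ^ k := by
      refine Finset.sum_le_sum fun k hk => ?_
      obtain ⟨hk1, hk2⟩ := Finset.mem_Icc.1 hk
      have hk3 : (k : ℝ) ≤ 1 / (4 * A) * N := by
        refine le_trans (by exact_mod_cast hk2) (Nat.floor_le (by positivity))
      refine (Sbad_card hu1 B hc hN k ((k + 3) / 4)).trans ?_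
      have h5 := mul_le_mul_of_nonneg_right (term hD1 hA hN hk1 hk3) hF0
      refine h5.trans (le_of_eq ?_)
      ring
    refine h4.trans ?_
    rw [← Finset.mul_sum]
    have h6 : ∑ k ∈ Icc 1 K, ρ ^ k ≤ (1 - ρ)⁻¹ := by
      rw [← tsum_geometric_of_lt_one hρ0 hρ1]
      exact (summable_geometric_of_lt_one hρ0 hρ1).sum_le_tsum _ (fun i _ => by positivity)
    calc 4 * A / N * F * ∑ k ∈ Icc 1 K, ρ ^ k ≤ 4 * A / N * F * (1 - ρ)⁻¹ :=
          mul_le_mul_of_nonneg_left h6 (by positivity)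
      _ = (4 * A * (1 - ρ)⁻¹) / N * F := by ring
  have h4 : (∑ k ∈ Icc 1 k₀, D ^ k * (k : ℝ) + 4 * A * (1 - ρ)⁻¹) / N * F =
      (∑ k ∈ Icc 1 k₀, D ^ k * k) / N * F + (4 * A * (1 - ρ)⁻¹) / N * F := by ring
  rw [h4]
  linarith

end Pool.Agent.N849.LF
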